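import Mathlib
import Pool.Agent.H52.Defs
import Pool.Agent.H52.Cover
import Pool.Agent.H52.Extend

/-!
Observability of the free Schrödinger equation from every uniformly continuous, relatively dense
observation function, in every dimension and for every positive time.
-/

open MeasureTheory Complex Set FourierTransform Metric Filter
open scoped Topology ENNReal NNReal

namespace Pool.Agent.Results.MP_0a8f24_an.RelDenseObservability

open Pool.Agent.H52

theorem obs_bb {d : ℕ} {a : EuclideanSpace ℝ (Fin d) → ℝ} (ha : UniformContinuous a)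
    (ha0 : ∀ x, 0 ≤ a x) {L η : ℝ} (hL : 0 < L) (hη : 0 < η)
    (hrel : ∀ c : EuclideanSpace ℝ (Fin d), η ≤ (L ^ d)⁻¹ * ∫ x in cube c L, a x)
    {T : ℝ} (hT : 0 < T) :
    ∃ C : ℕ, ∀ g : EuclideanSpace ℝ (Fin d) → ℂ, BB g →
      ∫⁻ ξ, ‖g ξ‖ₑ ^ 2 ≤ C * ∫⁻ t in Icc 0 T, (∫⁻ x, ENNReal.ofReal (a x) ^ 2 *
        ‖S t g x‖ₑ ^ 2) := by
  obtain ⟨δ, hδ0, hδ, I, hI⟩ := cover_of_dense ha hL hη hrel
  have hac := ha.continuous
  have hpi := Real.pi_pos
  have h4 : 0 < 1 + 4 * Real.pi * T := by positivity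
  set ρ : ℝ := δ / (2 * (1 + 4 * Real.pi * T)) with hρ
  have hρ0 : 0 < ρ := by rw [hρ]; positivity
  have hρ1 : ρ * (1 + 4 * Real.pi * T) < δ := by
    rw [hρ]
    have : δ / (2 * (1 + 4 * Real.pi * T)) * (1 + 4 * Real.pi * T) = δ / 2 := by
      field_simp
    rw [this]
    linarith
  have hbmeas : Measurable (fun x => ENNReal.ofReal (max (a x - η / 4) 0) ^ 2) := by
    apply Measurable.pow_const
    apply ENNReal.measurable_ofReal.comp
    exact ((hac.sub continuous_const).max continuous_const).measurable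
  have hameas : Measurable (fun x => ENNReal.ofReal (a x) ^ 2) :=
    (ENNReal.measurable_ofReal.comp hac.measurable).pow_const 2
  refine core hT hbmeas hameas hρ0 ?_ I (r := δ / 2) (by positivity)
    (c := ENNReal.ofReal (η / 4) ^ 2) ?_ (by simp) ?_
  · intro t ht0 htT β α X hβ hα
    gcongr
    apply max_le _ (ha0 _)
    apply hδ
    have h1 : X - (X - β + (4 * Real.pi * t) • α) = β - (4 * Real.pi * t) • α := by abel
    rw [dist_eq_norm, h1]
    calc ‖β - (4 * Real.pi * t) • α‖ ≤ ‖β‖ + ‖(4 * Real.pi * t) • α‖ := norm_sub_le _ _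
      _ = ‖β‖ + 4 * Real.pi * t * ‖α‖ := by
          rw [norm_smul, Real.norm_eq_abs, abs_of_nonneg (by positivity)]
      _ ≤ ρ + 4 * Real.pi * T * ρ := by gcongr
      _ = ρ * (1 + 4 * Real.pi * T) := by ring
      _ < δ := hρ1
  · simp only [ne_eq, OfNat.ofNat_ne_zero, not_false_eq_true, pow_eq_zero_iff,
      ENNReal.ofReal_eq_zero, not_le]
    positivity
  · intro s
    obtain ⟨z, hz, hzb⟩ := hI s
    refine ⟨z, hz, fun y hy => ?_⟩
    gcongr
    refine le_trans ?_ (le_max_left _ _)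
    have := hzb y hy
    linarith

/-- The time-dependent energy is continuous. -/
theorem continuous_energy {d : ℕ} {a : EuclideanSpace ℝ (Fin d) → ℝ} (ha : Continuous a)
    (ha0 : ∀ x, 0 ≤ a x) (ha1 : ∀ x, a x ≤ 1)
    (u : Lp ℂ 2 (volume : Measure (EuclideanSpace ℝ (Fin d)))) :
    Continuous (fun t => ∫ x, (a x * ‖flow t u x‖) ^ 2) ∧ ∀ t,
      ENNReal.ofReal (∫ x, (a x * ‖flow t u x‖) ^ 2) =
        ∫⁻ x, ENNReal.ofReal (a x) ^ 2 * ‖flow t u x‖ₑ ^ 2 := by
  have hm : Continuous (fun x => (a x : ℂ)) := by fun_prop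
  have hb : ∀ x, ‖(a x : ℂ)‖ ≤ 1 := by
    intro x
    rw [Complex.norm_real, Real.norm_eq_abs, abs_of_nonneg (ha0 x)]
    exact ha1 x
  set G : Lp ℂ 2 (volume : Measure (EuclideanSpace ℝ (Fin d))) →
      Lp ℂ 2 (volume : Measure (EuclideanSpace ℝ (Fin d))) := fun v =>
    (memLp_mul_of_le hm hb (Lp.memLp v)).toLp (fun x => (a x : ℂ) * v x) with hG
  have hGc : Continuous G := by
    have : LipschitzWith 1 G := by
      apply LipschitzWith.of_dist_le_mul
      intro u v
      rw [dist_eq_norm, dist_eq_norm, NNReal.coe_one, one_mul]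
      exact norm_sub_toLp_mul_le hm hb u v
    exact this.continuous
  have h1 : ∀ v : Lp ℂ 2 (volume : Measure (EuclideanSpace ℝ (Fin d))),
      ENNReal.ofReal (∫ x, (a x * ‖v x‖) ^ 2) = ∫⁻ x, ENNReal.ofReal (a x) ^ 2 * ‖v x‖ₑ ^ 2 := by
    intro v
    rw [ofReal_integral_eq_lintegral_ofReal]
    · congr 1
      ext x
      rw [mul_pow, ENNReal.ofReal_mul (by positivity), ENNReal.ofReal_pow (ha0 x),
        ENNReal.ofReal_pow (norm_nonneg _), ofReal_norm]
    · have := (memLp_mul_of_le hm hb (Lp.memLp v)).integrable_norm_pow (by norm_num)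
      refine this.congr ?_
      filter_upwards with x
      rw [norm_mul, Complex.norm_real, Real.norm_eq_abs, abs_of_nonneg (ha0 x)]
    · filter_upwards with x
      positivity
  have h2 : ∀ v : Lp ℂ 2 (volume : Measure (EuclideanSpace ℝ (Fin d))),
      ∫ x, (a x * ‖v x‖) ^ 2 = ‖G v‖ ^ 2 := by
    intro v
    have h3 := norm_toLp_sq (memLp_mul_of_le hm hb (Lp.memLp v))
    rw [← ENNReal.ofReal_eq_ofReal_iff, h1, hG]
    · rw [h3]
      congr 1
      ext x
      rw [enorm_mul, mul_pow]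
      have h5 : ‖(a x : ℂ)‖ₑ = ENNReal.ofReal (a x) := by
        rw [← ofReal_norm, Complex.norm_real, Real.norm_eq_abs, abs_of_nonneg (ha0 x)]
      rw [h5]
    · positivity
    · positivity
  refine ⟨?_, fun t => h1 _⟩
  simp_rw [h2]
  exact ((hGc.comp (continuous_flow u)).norm).pow 2

/-- **Observability from relatively dense observation functions.** In every dimension `d`, for
every uniformly continuous `a : ℝ^d → [0,1]` which is relatively dense, and for every `T > 0`,
the Schrödinger equation is observable from `a` in time `T`. -/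
theorem result (d : ℕ) (a : EuclideanSpace ℝ (Fin d) → ℝ) (ha : UniformContinuous a)
    (ha0 : ∀ x, 0 ≤ a x) (ha1 : ∀ x, a x ≤ 1) (hdense : RelDense a) (T : ℝ) (hT : 0 < T) :
    ObservableInTime a T := by
  obtain ⟨L, hL, η, hη, hrel⟩ := hdense
  obtain ⟨C, hC⟩ := obs_bb ha ha0 hL hη hrel hT
  refine ⟨4 * C + 1, by positivity, fun u => ?_⟩
  have hA1 : ∀ x, ENNReal.ofReal (a x) ^ 2 ≤ 1 := by
    intro x
    apply pow_le_one₀ zero_le
    rw [← ENNReal.ofReal_one]
    exact ENNReal.ofReal_le_ofReal (ha1 x)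
  have h1 := obs_extend hA1 hC u
  obtain ⟨hc, he⟩ := continuous_energy ha.continuous ha0 ha1 u
  have h2 : ∫⁻ x, ‖u x‖ₑ ^ 2 = ENNReal.ofReal (‖u‖ ^ 2) := by
    have := norm_toLp_sq (Lp.memLp u)
    rw [Lp.toLp_coeFn] at this
    exact this.symm
  have hint0 : 0 ≤ ∫ t in (0 : ℝ)..T, ∫ x, (a x * ‖flow t u x‖) ^ 2 := by
    apply intervalIntegral.integral_nonneg hT.le
    intro t _
    positivity
  have h3 : ∫⁻ t in Icc 0 T, (∫⁻ x, ENNReal.ofReal (a x) ^ 2 * ‖flow t u x‖ₑ ^ 2) =
      ENNReal.ofReal (∫ t in (0 : ℝ)..T, ∫ x, (a x * ‖flow t u x‖) ^ 2) := by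
    rw [intervalIntegral.integral_of_le hT.le, ← integral_Icc_eq_integral_Ioc,
      ofReal_integral_eq_lintegral_ofReal]
    · apply lintegral_congr
      intro t
      exact (he t).symm
    · exact hc.continuousOn.integrableOn_compact isCompact_Icc
    · filter_upwards with t
      positivity
  rw [h2, h3] at h1
  have h4 : (4 * (C : ℝ≥0∞)) = ENNReal.ofReal (4 * C) := by
    rw [ENNReal.ofReal_mul (by norm_num)]
    simp
  rw [h4, ← ENNReal.ofReal_mul (by positivity), ENNReal.ofReal_le_ofReal_iff (by positivity)] at h1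
  calc ‖u‖ ^ 2 ≤ _ := h1
    _ ≤ _ := by
      gcongr
      linarith

end Pool.Agent.Results.MP_0a8f24_an.RelDenseObservability
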